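import Mathlib
import Pool.Agent.Lib.MP_62a449_al.Defs
import Pool.Agent.Lib.MP_62a449_al.Family

/-!
For every `e ≥ 8` there are almost symmetric numerical semigroups of embedding dimension `e`
and arbitrarily large type.

With `p` odd, `x = p^2`, `y = p (p+2)`, `z = (p+2)^2` and a suitable `a`, the eight numbers
`a + {0,x} + {0,y} + {0,z}` generate an almost symmetric semigroup `G`; it is obtained from a
symmetric semigroup `T` by deleting elements that are killed by all nonzero elements of `T`.
Putting back `n` of the deleted elements gives embedding dimension `8 + n`.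
-/

namespace Pool.Agent.Results.MP_62a449_al.InfiniteFromEight

open Pool.Agent.MP_62a449_al Pool.Agent.MP_62a449_al.Cube

theorem result (e : ℕ) (he : 8 ≤ e) : maxType e = ⊤ := by
  rw [ENat.eq_top_iff_forall_ge]
  intro N
  obtain ⟨n, rfl⟩ := Nat.exists_eq_add_of_le he
  set p : ℤ := 2 * ((N : ℤ) + n) + 1 with hpdef
  have hp : 1 ≤ p := by omega
  have hc : IsCoprime p (p + 2) :=
    ⟨(N : ℤ) + n + 1, -((N : ℤ) + n), by rw [hpdef]; ring⟩
  have hn : (n : ℤ) ≤ p + 1 := by omega
  have h1 := Gam_type hp hc hn (by omega)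
  have h2 : N ≤ semigroupType (Gam p n hp hc hn) := le_trans (by omega) h1
  have h3 : (semigroupType (Gam p n hp hc hn) : ℕ∞) ≤ maxType (8 + n) :=
    le_iSup (fun Γ : {Γ : AddSubmonoid ℕ // IsNumericalSemigroup Γ ∧ IsAlmostSymmetric Γ ∧
        embDim Γ = 8 + n} => (semigroupType Γ.1 : ℕ∞))
      ⟨Gam p n hp hc hn, Gam_numerical hp hc hn, Gam_almostSymmetric hp hc hn,
        Gam_embDim hp hc hn⟩
  exact le_trans (by exact_mod_cast h2) h3

end Pool.Agent.Results.MP_62a449_al.InfiniteFromEight
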