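import Pool.Agent.Lib.MP_62a449_al.Five.Main

/-!
The maximal type of an almost symmetric numerical semigroup of embedding dimension `5` is `5`.

Upper bound: at least six pseudo-Frobenius numbers give three pairs `f + f' = F` (or two pairs and `F / 2`).
For every pair and every generator `n_a` the sum `f + n_a` lies in the semigroup.  The possible supports of these
expressions are treated by a search; every branch is closed by a refutation found by computer (combinations of the
relations between the generators, linear inequalities for the coefficients, and a bound for the number of
relations `f + n_a = p n_b` with only one term).  The certificates are checked by the kernel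
with the function `check` of `Five/Chk.lean`, which is proved to be sound.

Lower bound: `⟨14, 15, 17, 19, 20⟩` has type `5`.
-/

namespace Pool.Agent.Results.MP_62a449_al.ValueAtFive

open Pool.Agent.MP_62a449_al

theorem result : maxType 5 = 5 := by
  refine le_antisymm ?_ Five.low
  refine iSup_le ?_
  rintro ⟨Γ, h1, h2, h3⟩
  exact_mod_cast Five.type_le Γ h1 h2 h3

end Pool.Agent.Results.MP_62a449_al.ValueAtFive
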